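import Mathlib

namespace Pool.Agent.Results.MP_6b7ad2_lc.Q1
open Set Topology TopologicalSpace

variable {G X : Type} [Group G] [TopologicalSpace G] [TopologicalSpace X] [MulAction G X]

/-- The `(U,V)`-local graph. -/
def R (U : Set X) (V : Set G) (x y : X) : Prop := x ∈ U ∧ y ∈ U ∧ ∃ g ∈ V, g • x = y

/-- The local orbit: the connected component of `x` in the local graph. -/
def O (x : X) (U : Set X) (V : Set G) : Set X := {y | Relation.ReflTransGen (R U V) x y}

def Turbulent (G : Type) [Group G] [TopologicalSpace G] [MulAction G X] (x : X) : Prop :=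
  ∀ U : Set X, IsOpen U → x ∈ U → ∀ V : Set G, IsOpen V → 1 ∈ V → V⁻¹ = V →
    (interior (closure (O x U V))).Nonempty

omit [TopologicalSpace G] [TopologicalSpace X] in
lemma O_symm {U : Set X} {V : Set G} (hV : V⁻¹ = V) {x y} (h : y ∈ O x U V) : x ∈ O y U V := by
  induction h with
  | refl => exact .refl
  | tail _ h ih =>
    obtain ⟨ha, hb, g, hg, e⟩ := h
    exact .head ⟨hb, ha, g⁻¹, by rw [← hV]; simpa using hg, by simp [← e]⟩ ih

omit [TopologicalSpace G] in
/-- a local path can be followed by all nearby points -/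
lemma path [ContinuousConstSMul G X] {U : Set X} (hU : IsOpen U) {V : Set G} {x y}
    (h : y ∈ O x U V) : ∃ g : G, g • x = y ∧ ∀ᶠ z in 𝓝 x, g • z ∈ O z U V := by
  induction h with
  | refl => exact ⟨1, one_smul _ _, .of_forall fun z => by rw [one_smul]; exact .refl⟩
  | tail _ h ih =>
    obtain ⟨g, rfl, hg⟩ := ih
    obtain ⟨h1, h2, k, hk, rfl⟩ := h
    refine ⟨k * g, mul_smul _ _ _, ?_⟩
    have e1 := (continuous_const_smul g).continuousAt.eventually (hU.mem_nhds h1)
    have e2 := (continuous_const_smul (k * g)).continuousAt.eventually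
      (hU.mem_nhds (mul_smul k g x ▸ h2))
    filter_upwards [hg, e1, e2] with z a b c
    exact a.tail ⟨b, c, k, hk, (mul_smul _ _ _).symm⟩

omit [TopologicalSpace G] in
lemma reach_open [ContinuousConstSMul G X] {U : Set X} (hU : IsOpen U) (V : Set G) {W : Set X}
    (hW : IsOpen W) : IsOpen {x | (W ∩ O x U V).Nonempty} := by
  refine isOpen_iff_mem_nhds.2 fun x ⟨y, hy, h⟩ => ?_
  obtain ⟨g, rfl, hg⟩ := path hU h
  filter_upwards [hg, (continuous_const_smul g).continuousAt.eventually (hW.mem_nhds hy)]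
    with z a b using ⟨_, b, a⟩

omit [TopologicalSpace G] in
lemma hjorth [ContinuousConstSMul G X] {U : Set X} (hU : IsOpen U) {V : Set G} (hV : V⁻¹ = V) {x}
    (h : (interior (closure (O x U V))).Nonempty) : x ∈ interior (closure (O x U V)) := by
  obtain ⟨w, hw⟩ := h
  obtain ⟨y, hy, h⟩ := mem_closure_iff.1 (interior_subset hw) _ isOpen_interior hw
  obtain ⟨g, rfl, hg⟩ := path hU h
  obtain ⟨N, hN, No, xN⟩ := eventually_nhds_iff.1 (hg.and
    ((continuous_const_smul g).continuousAt.eventually (isOpen_interior.mem_nhds hy)))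
  refine mem_interior.2 ⟨N, fun z hz => mem_closure_iff.2 fun M Mo zM => ?_, No, xN⟩
  obtain ⟨_, ⟨u, hu, rfl⟩, h'⟩ := mem_closure_iff.1 (interior_subset (hN z hz).2) _
    ((Homeomorph.smul g).isOpenMap _ (Mo.inter No)) ⟨z, ⟨zM, hz⟩, rfl⟩
  exact ⟨u, hu.1, h'.trans (O_symm hV (hN u hu.2).1)⟩

omit [TopologicalSpace G] in
lemma P_gd [ContinuousConstSMul G X] [PolishSpace X] {U : Set X} (hU : IsOpen U) {V : Set G}
    (hV : V⁻¹ = V) : IsGδ {x | (interior (closure (O x U V))).Nonempty} := by
  let _ := upgradeIsCompletelyMetrizable X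
  have e : {x | (interior (closure (O x U V))).Nonempty} =
      (⋃ y, interior (closure (O y U V))) ∩ ⋂ W ∈ countableBasis X, ⋂ W' ∈ countableBasis X,
        {x | (∃ y, W ∪ W' ⊆ closure (O y U V)) → x ∈ Wᶜ ∪ {x | (W' ∩ O x U V).Nonempty}} := by
    ext x
    simp only [mem_ofPred_eq, mem_inter_iff, mem_iUnion, mem_iInter]
    constructor
    · intro h
      have hx := hjorth hU hV h
      refine ⟨⟨x, hx⟩, fun W hW W' hW' ⟨y, hy⟩ => ?_⟩
      by_cases xW : x ∈ W
      · right
        obtain ⟨z, hz, h1⟩ := mem_closure_iff.1 (hy (Or.inl xW)) _ isOpen_interior hx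
        obtain ⟨w, hw⟩ := nonempty_of_mem_countableBasis hW'
        obtain ⟨z', hz', h2⟩ := mem_closure_iff.1 (hy (Or.inr hw)) _
          (isOpen_of_mem_countableBasis hW') hw
        obtain ⟨u, ⟨v, hv, h3⟩, h4⟩ := mem_closure_iff.1 (interior_subset hz) _
          (reach_open hU V (isOpen_of_mem_countableBasis hW')) ⟨z', hz', (O_symm hV h1).trans h2⟩
        exact ⟨v, hv, h4.trans h3⟩
      · exact Or.inl xW
    · rintro ⟨⟨y, hy⟩, h⟩
      obtain ⟨W, hW, xW, sW⟩ := (isBasis_countableBasis X).exists_subset_of_mem_open hy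
        isOpen_interior
      refine ⟨x, mem_interior.2 ⟨W, fun z hz => mem_closure_iff.2 fun M Mo zM => ?_,
        isOpen_of_mem_countableBasis hW, xW⟩⟩
      obtain ⟨W', hW', -, sW'⟩ := (isBasis_countableBasis X).exists_subset_of_mem_open
        (show z ∈ M ∩ W from ⟨zM, hz⟩) (Mo.inter (isOpen_of_mem_countableBasis hW))
      rcases h W hW W' hW' ⟨y, union_subset (sW.trans interior_subset)
        ((sW'.trans inter_subset_right).trans (sW.trans interior_subset))⟩ with h | ⟨v, h1, h2⟩
      · exact absurd xW h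
      · exact ⟨v, (sW' h1).1, h2⟩
  rw [e]
  refine (isOpen_iUnion fun _ => isOpen_interior).isGδ.inter
    (IsGδ.biInter (countable_countableBasis X) fun W hW =>
      IsGδ.biInter (countable_countableBasis X) fun W' hW' => ?_)
  by_cases h : ∃ y, W ∪ W' ⊆ closure (O y U V)
  · simp only [h, true_imp_iff, ofPred_mem_eq]
    exact (isOpen_of_mem_countableBasis hW).isClosed_compl.isGδ.union
      (reach_open hU V (isOpen_of_mem_countableBasis hW')).isGδ
  · simp only [h, false_imp_iff]
    exact IsGδ.univ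

theorem result (G X : Type) [Group G] [TopologicalSpace G] [IsTopologicalGroup G] [PolishSpace G]
    [TopologicalSpace X] [PolishSpace X] [MulAction G X] [ContinuousSMul G X] :
    IsGδ {x : X | Turbulent G x} := by
  let _ := upgradeIsCompletelyMetrizable X
  have e : {x : X | Turbulent G x} = ⋂ U ∈ countableBasis X,
      ⋂ V ∈ {V ∈ countableBasis G | (1 : G) ∈ V},
        Uᶜ ∪ {x | (interior (closure (O x U (V ∩ V⁻¹)))).Nonempty} := by
    ext x
    simp only [mem_ofPred_eq, mem_iInter]
    constructor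
    · intro h U hU V hV
      have := isOpen_of_mem_countableBasis hV.1
      exact or_iff_not_imp_left.2 fun hx => h U (isOpen_of_mem_countableBasis hU) (not_not.1 hx) _
        (this.inter this.inv) ⟨hV.2, by simpa using hV.2⟩ (by simp [inter_comm])
    · intro h U hU xU V hV h1 hs
      obtain ⟨U', hU', x', sU⟩ := (isBasis_countableBasis X).exists_subset_of_mem_open xU hU
      obtain ⟨V', hV', y', sV⟩ := (isBasis_countableBasis G).exists_subset_of_mem_open h1 hV
      refine ((h U' hU' V' ⟨hV', y'⟩).resolve_left (not_not.2 x')).mono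
        (interior_mono (closure_mono fun y hy => ?_))
      induction hy with
      | refl => exact .refl
      | tail _ h ih =>
        obtain ⟨a, b, g, hg, e⟩ := h
        exact .tail ih ⟨sU a, sU b, g, sV hg.1, e⟩
  rw [e]
  exact IsGδ.biInter (countable_countableBasis X) fun U hU =>
    IsGδ.biInter ((countable_countableBasis G).mono fun _ h => h.1) fun V _ =>
      (isOpen_of_mem_countableBasis hU).isClosed_compl.isGδ.union
        (P_gd (isOpen_of_mem_countableBasis hU) (by simp [inter_comm]))

end Pool.Agent.Results.MP_6b7ad2_lc.Q1
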